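import Pool.Agent.Lib.MP_c7af3c_ag.T2C.IfaceB
import Pool.Agent.Lib.MP_c7af3c_ag.T2.H32.Norm

/-!
# MP_c7af3c_ag, project T2C: normal forms of one form, transport (helper32)

Row NORMONE of T2C/IfaceB.lean, as T2/H32/Norm.lean, for every degree.
-/

set_option autoImplicit false

namespace Pool.Agent.T2C.H32

open MvPolynomial Pool.Agent.Gen Pool.Agent.Sharp Pool.Agent.Edge
open Pool.Agent.T2 (S3 mulS mem_mulS QclStatement)
open Pool.Agent.T2.H32 (mm one3 ssub_ssub ssub_one exists_inv li_mm eval_ssub3 tr tr_apply tr_eq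
  tr_inj ssub_af af_C_mul)
open Pool.Agent.Sharp.H75 (dco DG af)
open Pool.Agent.Edge.H65 (ssub)

section

variable {K : Type} [Field K]

theorem coeff_eval {n : ℕ} {f : MvPolynomial (Fin 3) K} (hf : f.IsHomogeneous n) :
    coeff (Finsupp.single 0 n) f = eval ![1, 0, 0] f := by
  classical
  rw [eval_eq']
  have h : ∀ d ∈ f.support, d ≠ Finsupp.single 0 n →
      coeff d f * ∏ i, (![1, 0, 0] : Fin 3 → K) i ^ d i = 0 := by
    intro d hd hne
    rw [Fin.prod_univ_three]
    have hdeg : d.degree = n := by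
      by_contra hn
      exact mem_support_iff.1 hd (hf.coeff_eq_zero hn)
    rw [Finsupp.degree_eq_sum, Fin.sum_univ_three] at hdeg
    by_cases h1 : d 1 = 0
    · by_cases h2 : d 2 = 0
      · exfalso
        apply hne
        ext i
        fin_cases i
        · simp; omega
        · simpa using h1
        · simpa using h2
      · simp [h2]
    · simp [h1]
  by_cases hm : Finsupp.single 0 n ∈ f.support
  · rw [Finset.sum_eq_single_of_mem _ hm h, Fin.prod_univ_three]
    simp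
  · rw [Finset.sum_eq_zero, notMem_support_iff.1 hm]
    intro d hd
    refine h d hd ?_
    rintro rfl
    exact hm hd

/-- the space `M` in the new coordinates -/
theorem stb_tr {r : ℕ} {q q0 f : MvPolynomial (Fin 3) K} {y : Fin 3 → K}
    {M : Submodule K (Fin 3 → Fin 3 → K)} (hM : StbE r q f y M) {g h : Fin 3 → Fin 3 → K}
    (hgh : mm h g = one3) (hgh' : mm g h = one3) (hy : y = g 0) {a : K} (ha : a ≠ 0)
    (hq : ssub g q = C a * q0) : StbE r q0 (ssub g f) ![1, 0, 0] (M.map (tr g h)) where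
  two := by
    rw [← (Submodule.equivMapOfInjective (tr g h) (tr_inj hgh hgh') M).finrank_eq]
    exact hM.two
  fy := by
    rintro _ ⟨L, hL, rfl⟩
    obtain ⟨c, hc⟩ := hM.fy L hL
    refine ⟨c, fun j => ?_⟩
    have h1 : ∑ i, tr g h L j i * (![1, 0, 0] : Fin 3 → K) i = tr g h L j 0 := by
      rw [Fin.sum_univ_three]
      simp
    rw [h1, tr_apply]
    have h2 : ∀ p : Fin 3, ∑ r, L p r * g 0 r = c * g 0 p := by
      intro p
      rw [← hy]
      exact hc p
    have h3 : ∑ p, h p j * ∑ r, L p r * g 0 r = c * mm g h 0 j := by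
      unfold mm
      rw [Finset.mul_sum]
      refine Finset.sum_congr rfl fun p _ => ?_
      rw [h2]
      ring
    rw [h3, hgh']
    congr 1
    fin_cases j <;> simp [one3]
  fq := by
    rintro _ ⟨L, hL, rfl⟩
    obtain ⟨c, hc⟩ := hM.fq L hL
    refine ⟨c, ?_⟩
    have h1 := ssub_af (tr_eq hgh L) q
    rw [hc, map_mul, H65.ssub_C, hq, af_C_mul] at h1
    have h2 : (C a : MvPolynomial (Fin 3) K) ≠ 0 := by
      rw [Ne, C_eq_zero]
      exact ha
    refine mul_left_cancel₀ h2 ?_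
    rw [← h1]
    ring
  ff := by
    rintro _ ⟨L, hL, rfl⟩
    obtain ⟨b, hb, hb2⟩ := mem_mulS.1 (hM.ff L hL)
    rw [← ssub_af (tr_eq hgh L) f, ← hb2, map_mul, hq]
    refine mem_mulS.2 ⟨C a * ssub g b, ?_, by ring⟩
    have h1 := (isHomogeneous_C (Fin 3) a).mul (H65.ssub_hom g hb)
    rwa [zero_add] at h1

theorem key {q f : MvPolynomial (Fin 3) K} [CharZero K] [IsAlgClosed K] {y : Fin 3 → K}
    (q0 : MvPolynomial (Fin 3) ℤ) (hN : NormeStatement q0) {r : ℕ} (hr : 1 ≤ r)
    (hf : f.IsHomogeneous (r + 2)) (hyf : eval y f = 0)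
    (hz : ∀ z : MvPolynomial (Fin 3) K, z.IsHomogeneous 1 → z ≠ 0 → z ∣ q → f ∉ mulS z (r + 1))
    (M : Submodule K (Fin 3 → Fin 3 → K)) (hM : StbE r q f y M) (g : Fin 3 → Fin 3 → K)
    (hg : LinearIndependent K g) (hy : y = g 0) (a : K) (ha : a ≠ 0)
    (hq : ssub g q = C a * MvPolynomial.map (Int.castRingHom K) q0) :
    ∃ (g : Fin 3 → Fin 3 → K) (q0 f0 : MvPolynomial (Fin 3) ℤ) (y0 : Fin 3 → ℤ) (a b : K),
      CfgE r q f y g q0 f0 y0 a b := by
  obtain ⟨h, h1, h2⟩ := exists_inv hg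
  have hf' : (ssub g f).IsHomogeneous (r + 2) := H65.ssub_hom g hf
  have e0 : ∀ j, ∑ i, (![1, 0, 0] : Fin 3 → K) i * g i j = g 0 j := by
    intro j
    rw [Fin.sum_univ_three]
    simp
  have hc : coeff (Finsupp.single 0 (r + 2)) (ssub g f) = 0 := by
    rw [coeff_eval hf', eval_ssub3]
    simp only [e0]
    rw [← hyf, hy]
  have hback : ∀ F : MvPolynomial (Fin 3) K, ssub h (ssub g F) = F := by
    intro F
    rw [ssub_ssub, h2, ssub_one]
  have hforth : ∀ F : MvPolynomial (Fin 3) K, ssub g (ssub h F) = F := by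
    intro F
    rw [ssub_ssub, h1, ssub_one]
  have hz' : ∀ z : MvPolynomial (Fin 3) K, z.IsHomogeneous 1 → z ≠ 0 →
      z ∣ MvPolynomial.map (Int.castRingHom K) q0 → ssub g f ∉ mulS z (r + 1) := by
    intro z hz1 hz0 hzq hm
    obtain ⟨b, hb, hb2⟩ := mem_mulS.1 hm
    refine hz (ssub h z) (H65.ssub_hom h hz1) ?_ ?_
      (mem_mulS.2 ⟨ssub h b, H65.ssub_hom h hb, ?_⟩)
    · intro h0
      apply hz0
      rw [← hforth z, h0, map_zero]
    · rw [← hback q, hq, map_mul]
      exact Dvd.dvd.mul_left (map_dvd (ssub h) hzq) _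
    · rw [← map_mul, hb2, hback]
  obtain ⟨g', f0, y0, a', b, hC⟩ := hN K r (ssub g f) hr hf' hc hz' _
    (stb_tr hM h2 h1 hy ha hq)
  refine ⟨mm g' g, q0, f0, y0, a * a', b, li_mm hg hC.gi, mul_ne_zero ha hC.a0, ?_, ?_, ?_⟩
  · rw [← ssub_ssub, hq, map_mul, H65.ssub_C, hC.hq, C_mul, mul_assoc]
  · rw [← ssub_ssub]
    exact hC.hf
  · intro j
    rw [hy, ← e0 j]
    have h3 : ∀ i : Fin 3, (![1, 0, 0] : Fin 3 → K) i * g i j =
        b * ∑ k, (y0 k : K) * (g' k i * g i j) := by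
      intro i
      rw [hC.hy i, mul_assoc, Finset.sum_mul]
      congr 1
      refine Finset.sum_congr rfl fun k _ => ?_
      ring
    rw [Finset.sum_congr rfl fun i _ => h3 i, ← Finset.mul_sum, Finset.sum_comm]
    congr 1
    refine Finset.sum_congr rfl fun k _ => ?_
    unfold mm
    rw [Finset.mul_sum]

end

/-- Row NORMONE. -/
theorem normone : NormOneStatement := by
  intro hQ h1 h2 h3 h4 K _ _ _ r q f y hr hq hq0 hf hy hyq hyf hz M hM
  obtain ⟨g, hg, hyg, a, ha, hc⟩ := hQ K q y hq hq0 hy hyq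
  rcases hc with hc | hc | hc | hc
  · refine key _ h1 hr hf hyf hz M hM g hg hyg a ha ?_
    simpa using hc
  · refine key _ h2 hr hf hyf hz M hM g hg hyg a ha ?_
    simpa using hc
  · refine key _ h3 hr hf hyf hz M hM g hg hyg a ha ?_
    simpa using hc
  · refine key _ h4 hr hf hyf hz M hM g hg hyg a ha ?_
    simpa using hc

end Pool.Agent.T2C.H32
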